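import Mathlib

set_option autoImplicit false

open NumberField

namespace Pool.Agent.Y159.OR

theorem orB (R S : Type) [CommRing R] [IsDomain R] [CommRing S] [IsDomain S] (e : R ≃+* S)
    (k : ℕ) : Nat.card {x : ClassGroup R // x ^ k = 1} =
      Nat.card {x : ClassGroup S // x ^ k = 1} := by
  refine Nat.card_congr ((ClassGroup.mulEquiv e).toEquiv.subtypeEquiv fun x => ?_)
  change x ^ k = 1 ↔ (ClassGroup.mulEquiv e x) ^ k = 1
  rw [← map_pow, map_eq_one_iff _ (ClassGroup.mulEquiv e).injective]

end Pool.Agent.Y159.OR
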