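import Pool.Agent.Y159.OR.A
import Pool.Agent.Y159.OR.B

set_option autoImplicit false

open NumberField

namespace Pool.Agent.Y159.OR

/-- For finitely many negative discriminants whose orders are maximal there are quadratic fields with
these discriminants and with the same class groups. -/
theorem chooseK (P : ℤ → ℤ) (S : Finset ℤ)
    (hS : ∀ t ∈ S, P t < 0 ∧ (P t % 4 = 0 ∨ P t % 4 = 1) ∧ IsIntegrallyClosed (Od (P t))) :
    ∃ (K : ℤ → Type) (_ : ∀ t, Field (K t)) (_ : ∀ t, NumberField (K t)), ∀ t ∈ S,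
      Module.finrank ℚ (K t) = 2 ∧ NumberField.discr (K t) = P t ∧
      ∀ k : ℕ, Nat.card {x : ClassGroup (𝓞 (K t)) // x ^ k = 1} =
        Nat.card {x : ClassGroup (Od (P t)) // x ^ k = 1} := by
  have h : ∀ t : ℤ, ∃ (K : Type) (_ : Field K) (_ : NumberField K), t ∈ S →
      Module.finrank ℚ K = 2 ∧ NumberField.discr K = P t ∧
      ∀ k : ℕ, Nat.card {x : ClassGroup (𝓞 K) // x ^ k = 1} =
        Nat.card {x : ClassGroup (Od (P t)) // x ^ k = 1} := by
    intro t
    by_cases ht : t ∈ S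
    · obtain ⟨h1, h2, h3⟩ := hS t ht
      obtain ⟨K, F, N, h4, h5, ⟨e⟩⟩ := orA (P t) h1 h2 h3
      exact ⟨K, F, N, fun _ => ⟨h4, h5, fun k => orB _ _ e k⟩⟩
    · exact ⟨ℚ, inferInstance, inferInstance, fun h => absurd h ht⟩
  choose K F N h using h
  exact ⟨K, F, N, fun t ht => h t ht⟩

end Pool.Agent.Y159.OR
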