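import Mathlib
set_option autoImplicit false
open NumberField
namespace Pool.Agent.Y159.OR

noncomputable abbrev Od (d : ℤ) : Subalgebra ℤ ℂ :=
  Algebra.adjoin ℤ ({((d : ℂ) + Complex.I * ((Real.sqrt (-(d : ℝ)) : ℝ) : ℂ)) / 2} : Set ℂ)

noncomputable def om (d : ℤ) : ℂ := ((d : ℂ) + Complex.I * ((Real.sqrt (-(d : ℝ)) : ℝ) : ℂ)) / 2

theorem om_sq (d : ℤ) (hd : d < 0) (hd4 : d % 4 = 0 ∨ d % 4 = 1) :
    ∃ c : ℤ, 4 * c = d ^ 2 - d ∧ om d ^ 2 = (d : ℂ) * om d - (c : ℂ) := by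
  obtain ⟨c, hc⟩ : ∃ c : ℤ, 4 * c = d ^ 2 - d := by
    rcases hd4 with h | h
    · obtain ⟨m, rfl⟩ : (4 : ℤ) ∣ d := Int.dvd_of_emod_eq_zero h
      exact ⟨4 * m ^ 2 - m, by ring⟩
    · obtain ⟨m, hm⟩ : (4 : ℤ) ∣ d - 1 := Int.dvd_of_emod_eq_zero (by omega)
      obtain rfl : d = 4 * m + 1 := by linarith
      exact ⟨4 * m ^ 2 + m, by ring⟩
  refine ⟨c, hc, ?_⟩
  have h1 : (((Real.sqrt (-(d : ℝ)) : ℝ) : ℂ)) ^ 2 = -(d : ℂ) := by
    have : (0 : ℝ) ≤ -(d : ℝ) := by
      have : (d : ℝ) < 0 := by exact_mod_cast hd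
      linarith
    have h := Real.sq_sqrt this
    have h' : (((Real.sqrt (-(d : ℝ)) ^ 2 : ℝ)) : ℂ) = ((-(d : ℝ) : ℝ) : ℂ) := by rw [h]
    push_cast at h'
    exact h'
  have h2 : (4 : ℂ) * c = (d : ℂ) ^ 2 - d := by exact_mod_cast hc
  have h3 : Complex.I ^ 2 = -1 := Complex.I_sq
  have h4 : (4 : ℂ) * om d ^ 2 = 4 * ((d : ℂ) * om d - (c : ℂ)) := by
    unfold om
    linear_combination (Complex.I ^ 2) * h1 + (-(d : ℂ)) * h3 + h2
  linear_combination h4 / 4

theorem om_im (d : ℤ) (hd : d < 0) : (om d).im ≠ 0 := by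
  have : (0 : ℝ) < -(d : ℝ) := by
    have : (d : ℝ) < 0 := by exact_mod_cast hd
    linarith
  have h := Real.sqrt_pos.2 this
  have : (om d).im = Real.sqrt (-(d : ℝ)) / 2 := by
    unfold om
    simp
  rw [this]
  positivity

theorem om_int (d : ℤ) (hd : d < 0) (hd4 : d % 4 = 0 ∨ d % 4 = 1) : IsIntegral ℤ (om d) := by
  obtain ⟨c, _, h⟩ := om_sq d hd hd4
  refine ⟨Polynomial.X ^ 2 - Polynomial.C d * Polynomial.X + Polynomial.C c, ?_, ?_⟩
  · monicity!
  · simp only [Polynomial.eval₂_add, Polynomial.eval₂_sub, Polynomial.eval₂_mul,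
      Polynomial.eval₂_pow, Polynomial.eval₂_X, Polynomial.eval₂_C]
    simp only [algebraMap_int_eq, eq_intCast]
    rw [h]; ring

theorem om_deg (d : ℤ) (hd : d < 0) (hd4 : d % 4 = 0 ∨ d % 4 = 1) :
    (minpoly ℚ (om d)).natDegree = 2 := by
  obtain ⟨c, _, h⟩ := om_sq d hd hd4
  have hi : IsIntegral ℚ (om d) := (om_int d hd hd4).tower_top
  refine le_antisymm ?_ ?_
  · have hm : (Polynomial.X ^ 2 - Polynomial.C (d : ℚ) * Polynomial.X +
        Polynomial.C (c : ℚ)).Monic := by monicity!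
    have h0 : Polynomial.aeval (om d) (Polynomial.X ^ 2 - Polynomial.C (d : ℚ) * Polynomial.X +
        Polynomial.C (c : ℚ)) = 0 := by
      simp only [map_add, map_sub, map_mul, map_pow, Polynomial.aeval_X, Polynomial.aeval_C]
      simp only [eq_ratCast, Rat.cast_intCast]
      rw [h]; ring
    have := Polynomial.natDegree_le_of_dvd (minpoly.dvd ℚ (om d) h0) hm.ne_zero
    refine this.trans (le_of_eq ?_)
    compute_degree!
  · rw [minpoly.two_le_natDegree_iff hi]
    rintro ⟨q, hq⟩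
    apply om_im d hd
    rw [← hq]
    simp


/-- the quadratic field -/
noncomputable abbrev Kd (d : ℤ) : IntermediateField ℚ ℂ := IntermediateField.adjoin ℚ {om d}

theorem Od_le (d : ℤ) (x : ℂ) (hx : x ∈ Od d) : x ∈ Kd d := by
  have : Od d ≤ (Kd d).toSubalgebra.restrictScalars ℤ := by
    refine Algebra.adjoin_le ?_
    intro y hy
    rw [Set.mem_singleton_iff] at hy
    rw [hy]
    exact IntermediateField.mem_adjoin_simple_self ℚ (om d)
  exact this hx

theorem frac (d : ℤ) (r : Polynomial ℚ) :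
    ∃ q : ℤ, q ≠ 0 ∧ (q : ℂ) * Polynomial.aeval (om d) r ∈ Od d := by
  have hom : om d ∈ Od d := Algebra.self_mem_adjoin_singleton ℤ _
  induction r using Polynomial.induction_on' with
  | add p q hp hq =>
    obtain ⟨a, ha, h1⟩ := hp
    obtain ⟨b, hb, h2⟩ := hq
    refine ⟨a * b, mul_ne_zero ha hb, ?_⟩
    have : ((a * b : ℤ) : ℂ) * Polynomial.aeval (om d) (p + q) =
        (b : ℂ) * ((a : ℂ) * Polynomial.aeval (om d) p) +
        (a : ℂ) * ((b : ℂ) * Polynomial.aeval (om d) q) := by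
      push_cast; rw [map_add]; ring
    rw [this]
    exact add_mem (mul_mem (intCast_mem _ b) h1) (mul_mem (intCast_mem _ a) h2)
  | monomial n a =>
    refine ⟨a.den, by exact_mod_cast a.den_ne_zero, ?_⟩
    rw [Polynomial.aeval_monomial]
    have : ((a.den : ℤ) : ℂ) * (algebraMap ℚ ℂ a * om d ^ n) = (a.num : ℂ) * om d ^ n := by
      rw [← mul_assoc]
      congr 1
      have h := Rat.den_mul_eq_num a
      simp only [eq_ratCast]
      exact_mod_cast h
    rw [this]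
    exact mul_mem (intCast_mem _ _) (pow_mem hom n)

noncomputable instance algOK (d : ℤ) : Algebra (Od d) (Kd d) :=
  RingHom.toAlgebra
    { toFun := fun x => ⟨x.1, Od_le d x.1 x.2⟩
      map_one' := rfl
      map_mul' := fun _ _ => rfl
      map_zero' := rfl
      map_add' := fun _ _ => rfl }

theorem algOK_apply (d : ℤ) (x : Od d) : ((algebraMap (Od d) (Kd d) x : Kd d) : ℂ) = x.1 := rfl

theorem isFrac (d : ℤ) : IsFractionRing (Od d) (Kd d) := by
  have : FaithfulSMul (Od d) (Kd d) := by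
    rw [faithfulSMul_iff_algebraMap_injective]
    intro x y h
    exact Subtype.ext (congrArg (fun z : Kd d => (z : ℂ)) h)
  refine IsFractionRing.of_field _ _ fun z => ?_
  obtain ⟨r, s, hz⟩ := (IntermediateField.mem_adjoin_simple_iff ℚ (z : ℂ)).1 z.2
  obtain ⟨a, ha, h1⟩ := frac d r
  obtain ⟨b, hb, h2⟩ := frac d s
  have ha' : (a : ℂ) ≠ 0 := by exact_mod_cast ha
  have hb' : (b : ℂ) ≠ 0 := by exact_mod_cast hb
  refine ⟨⟨(b : ℂ) * ((a : ℂ) * Polynomial.aeval (om d) r), mul_mem (intCast_mem _ b) h1⟩,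
    ⟨(a : ℂ) * ((b : ℂ) * Polynomial.aeval (om d) s), mul_mem (intCast_mem _ a) h2⟩, ?_⟩
  apply Subtype.ext
  rw [IntermediateField.coe_div, algOK_apply, algOK_apply, hz]
  simp only
  by_cases hs : Polynomial.aeval (om d) s = 0
  · rw [hs]; simp
  · field_simp

theorem orA (d : ℤ) (hd : d < 0) (hd4 : d % 4 = 0 ∨ d % 4 = 1)
    (hc : IsIntegrallyClosed (Od d)) :
    ∃ (K : Type) (_ : Field K) (_ : NumberField K), Module.finrank ℚ K = 2 ∧
      NumberField.discr K = d ∧ Nonempty (𝓞 K ≃+* Od d) := by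
  obtain ⟨c, hc4, hsq⟩ := om_sq d hd hd4
  have hZ : IsIntegral ℤ (om d) := om_int d hd hd4
  have hQ : IsIntegral ℚ (om d) := hZ.tower_top
  have hfd : FiniteDimensional ℚ (Kd d) := IntermediateField.adjoin.finiteDimensional hQ
  have hNF : NumberField (Kd d) := ⟨⟩
  have hrank : Module.finrank ℚ (Kd d) = 2 := by
    rw [IntermediateField.adjoin.finrank hQ, om_deg d hd hd4]
  have hfr : IsFractionRing (Od d) (Kd d) := isFrac d
  have hint : Algebra.IsIntegral ℤ (Od d) := by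
    refine ⟨fun x => ?_⟩
    have h1 : (x : ℂ) ∈ integralClosure ℤ ℂ :=
      (Algebra.adjoin_le (S := integralClosure ℤ ℂ) (by
        intro y hy
        rw [Set.mem_singleton_iff] at hy
        rw [hy]
        exact hZ)) x.2
    exact (isIntegral_algHom_iff (Od d).val Subtype.val_injective).1 h1
  have hic : IsIntegralClosure (Od d) ℤ (Kd d) := inferInstance
  let e : 𝓞 (Kd d) ≃+* Od d := RingOfIntegers.equiv (Od d)
  refine ⟨Kd d, inferInstance, hNF, hrank, ?_, ⟨e⟩⟩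
  -- basis
  have hmin : (minpoly ℤ (om d)).natDegree = 2 := by
    have h := minpoly.isIntegrallyClosed_eq_field_fractions' ℚ hZ
    rw [← om_deg d hd hd4, h, (minpoly.monic hZ).natDegree_map]
  let pb : PowerBasis ℤ (Od d) := Algebra.adjoin.powerBasis' hZ
  have hdim : pb.dim = 2 := by
    rw [Algebra.adjoin.powerBasis'_dim]; exact hmin
  let b : Module.Basis (Fin 2) ℤ (𝓞 (Kd d)) :=
    (pb.basis.reindex (finCongr hdim)).map
      (AddEquiv.toIntLinearEquiv (e.symm.toAddEquiv))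
  have hgen : pb.gen = ⟨om d, Algebra.self_mem_adjoin_singleton ℤ _⟩ :=
    Algebra.adjoin.powerBasis'_gen hZ
  have hb0 : b 0 = 1 := by
    simp [b]
  have hb1 : b 1 = e.symm ⟨om d, Algebra.self_mem_adjoin_singleton ℤ _⟩ := by
    simp [b, hgen]
  have hw : b 1 * b 1 = (d : 𝓞 (Kd d)) * b 1 - (c : 𝓞 (Kd d)) := by
    rw [hb1, ← map_mul]
    have : (⟨om d, Algebra.self_mem_adjoin_singleton ℤ _⟩ : Od d) *
        ⟨om d, Algebra.self_mem_adjoin_singleton ℤ _⟩ =
        (d : Od d) * ⟨om d, Algebra.self_mem_adjoin_singleton ℤ _⟩ - (c : Od d) := by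
      apply Subtype.ext
      push_cast
      rw [← sq]
      exact hsq
    rw [this]
    simp
  have t1 : Algebra.trace ℤ (𝓞 (Kd d)) 1 = 2 := by
    have := Algebra.trace_algebraMap_of_basis b (1 : ℤ)
    simpa using this
  have hw' : b 1 * b 1 = d • b 1 - c • b 0 := by
    rw [hw, hb0]; simp
  have tw : Algebra.trace ℤ (𝓞 (Kd d)) (b 1) = d := by
    rw [Algebra.trace_eq_matrix_trace b, Matrix.trace_fin_two, Algebra.leftMulMatrix_eq_repr_mul,
      Algebra.leftMulMatrix_eq_repr_mul, hw', hb0, mul_one, ← hb0, map_sub, map_smul, map_smul,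
      Module.Basis.repr_self, Module.Basis.repr_self]
    simp
  have tw2 : Algebra.trace ℤ (𝓞 (Kd d)) (b 1 * b 1) = d * d - c * 2 := by
    rw [hw', map_sub, map_smul, map_smul, tw, hb0, t1]
    simp
  rw [← NumberField.discr_eq_discr (Kd d) b, Algebra.discr_def, Matrix.det_fin_two]
  simp only [Algebra.traceMatrix_apply, Algebra.traceForm_apply]
  rw [tw2, hb0, one_mul, mul_one, one_mul, t1, tw]
  linarith

end Pool.Agent.Y159.OR
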